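import Pool.Agent.Helper89.GW.Stmts

set_option autoImplicit false

namespace GW

theorem dat_fin (P : ℤ → ℤ → Prop)
    (h : ∀ i : Fin 21, ∀ j : Fin 25, P ((i : ℤ) - 7) (j : ℤ)) :
    ∀ c k : ℤ, -7 ≤ c → c ≤ 13 → 0 ≤ k → k ≤ 24 → P c k := by
  intro c k h1 h2 h3 h4
  have := h ⟨(c + 7).toNat, by omega⟩ ⟨k.toNat, by omega⟩
  have e1 : (((c + 7).toNat : ℕ) : ℤ) - 7 = c := by omega
  have e2 : ((k.toNat : ℕ) : ℤ) = k := by omega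
  simpa only [e1, e2] using this

theorem dat_tg_out (T : List (List ℤ)) (c k : ℤ) (h : ¬ (-7 ≤ c ∧ c ≤ 13 ∧ 0 ≤ k ∧ k ≤ 24)) :
    tg T c k = 0 := by
  unfold tg
  rw [if_neg h]

theorem dat_sup (T : List (List ℤ)) : SupI (tg T) := by
  intro c k h
  by_contra hcon
  apply h
  apply dat_tg_out
  omega

theorem dat_sym (T : List (List ℤ)) (c k : ℤ) : tg T c (24 - k) = tg T c k := by
  unfold tg
  have e : min (24 - k) (24 - (24 - k)) = min k (24 - k) := by omega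
  rw [e]
  by_cases h : -7 ≤ c ∧ c ≤ 13 ∧ 0 ≤ k ∧ k ≤ 24
  · rw [if_pos h, if_pos (by omega)]
  · rw [if_neg h, if_neg (by omega)]

theorem dat_nonneg (T : List (List ℤ))
    (h : ∀ i : Fin 21, ∀ j : Fin 25, 0 ≤ tg T ((i : ℤ) - 7) (j : ℤ)) :
    ∀ c k : ℤ, 0 ≤ tg T c k := by
  intro c k
  by_cases hr : -7 ≤ c ∧ c ≤ 13 ∧ 0 ≤ k ∧ k ≤ 24
  · exact dat_fin (fun c k => 0 ≤ tg T c k) h c k hr.1 hr.2.1 hr.2.2.1 hr.2.2.2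
  · rw [dat_tg_out T c k hr]

set_option maxRecDepth 100000 in
theorem dat_A0 : ∀ c k : ℤ, 0 ≤ tg rowsA c k := dat_nonneg _ (by decide +kernel)

set_option maxRecDepth 100000 in
theorem dat_B0 : ∀ c k : ℤ, 0 ≤ tg rowsB c k := dat_nonneg _ (by decide +kernel)

set_option maxRecDepth 100000 in
theorem dat_pq : ∀ c k : ℤ, -7 ≤ c → c ≤ 13 → 0 ≤ k → k ≤ 24 →
    (3 ≤ c → c ≤ 8 → 8 ≤ k → k ≤ 16 → qI c k ≤ pI c k) :=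
  dat_fin (fun c k => 3 ≤ c → c ≤ 8 → 8 ≤ k → k ≤ 16 → qI c k ≤ pI c k) (by decide +kernel)

set_option maxRecDepth 100000 in
theorem dat_4a : ∀ c k : ℤ, -7 ≤ c → c ≤ 13 → 0 ≤ k → k ≤ 24 →
    (c ≤ -2 → 3 ≤ k → k ≤ 21 → (k ≤ 4 ∨ 20 ≤ k) → aI c k = bI c k ∧ mI c k = 0) :=
  dat_fin (fun c k => c ≤ -2 → 3 ≤ k → k ≤ 21 → (k ≤ 4 ∨ 20 ≤ k) → aI c k = bI c k ∧ mI c k = 0)
    (by decide +kernel)

set_option maxRecDepth 100000 in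
theorem dat_4b : ∀ c k : ℤ, -7 ≤ c → c ≤ 13 → 0 ≤ k → k ≤ 24 →
    (-3 ≤ c → 3 ≤ k → k ≤ 21 → (k ≤ 4 ∨ 20 ≤ k) → aI c k = aI' c k ∧ bI c k = 0) :=
  dat_fin (fun c k => -3 ≤ c → 3 ≤ k → k ≤ 21 → (k ≤ 4 ∨ 20 ≤ k) →
    aI c k = aI' c k ∧ bI c k = 0) (by decide +kernel)

set_option maxRecDepth 100000 in
theorem dat_5a : ∀ c k : ℤ, -7 ≤ c → c ≤ 13 → 0 ≤ k → k ≤ 24 →
    (3 ≤ c → c ≤ 8 → 8 ≤ k → k ≤ 16 → xI c k = 1 ∧ 1 ≤ aI c k ∧ 1 ≤ bI c k) :=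
  dat_fin (fun c k => 3 ≤ c → c ≤ 8 → 8 ≤ k → k ≤ 16 → xI c k = 1 ∧ 1 ≤ aI c k ∧ 1 ≤ bI c k)
    (by decide +kernel)

set_option maxRecDepth 100000 in
theorem dat_5b : ∀ c k : ℤ, -7 ≤ c → c ≤ 13 → 0 ≤ k → k ≤ 24 →
    (3 ≤ c → c ≤ 8 → 8 ≤ k → k ≤ 16 → (c ≤ 4 ∨ 7 ≤ c ∨ k ≤ 9 ∨ 15 ≤ k) →
      pI c k = aI c k ∧ qI c k = mI c k + bI c k) :=
  dat_fin (fun c k => 3 ≤ c → c ≤ 8 → 8 ≤ k → k ≤ 16 → (c ≤ 4 ∨ 7 ≤ c ∨ k ≤ 9 ∨ 15 ≤ k) →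
      pI c k = aI c k ∧ qI c k = mI c k + bI c k) (by decide +kernel)

theorem st_DAT : ST_DAT := by
  refine ⟨⟨dat_sup _, ?_, dat_sup _, dat_sup _, dat_sup _, dat_sup _, ?_⟩,
    ⟨dat_sym _, ?_, dat_sym _, dat_sym _, dat_sym _, dat_sym _, ?_⟩,
    ⟨dat_A0, ?_, dat_B0, ?_⟩, ⟨?_, ?_⟩, ⟨?_, ?_, ?_⟩⟩
  · intro c k h
    unfold aI' at h
    split_ifs at h with h1
    · exact absurd rfl h
    · exact dat_sup rowsA c k h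
  · intro c k h
    unfold xI at h
    split_ifs at h with h1
    · omega
    · exact absurd rfl h
  · intro c k
    unfold aI'
    rw [dat_sym]
  · intro c k
    unfold xI
    by_cases h : -3 ≤ c ∧ c ≤ 13 ∧ 5 ≤ k ∧ k ≤ 19
    · rw [if_pos h, if_pos (by omega)]
    · rw [if_neg h, if_neg (by omega)]
  · intro c k
    unfold aI'
    split_ifs
    · exact le_refl _
    · exact dat_A0 c k
  · intro c k h1 h2 h3 h4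
    exact dat_pq c k (by omega) (by omega) (by omega) (by omega) h1 h2 h3 h4
  · intro c k h1 h2 h3 h4
    have e1 : aI' c k = 0 := by unfold aI'; rw [if_pos h1]
    have e2 : xI c k = 0 := by unfold xI; rw [if_neg (by omega)]
    by_cases hr : -7 ≤ c ∧ c ≤ 13 ∧ 0 ≤ k ∧ k ≤ 24
    · have := dat_4a c k hr.1 hr.2.1 hr.2.2.1 hr.2.2.2 h1 h2 h3 h4
      exact ⟨this.1, e1, this.2, e2⟩
    · refine ⟨?_, e1, dat_tg_out _ _ _ hr, e2⟩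
      unfold aI bI
      rw [dat_tg_out _ _ _ hr, dat_tg_out _ _ _ hr]
  · intro c k h1 h2 h3 h4
    by_cases hr : -7 ≤ c ∧ c ≤ 13 ∧ 0 ≤ k ∧ k ≤ 24
    · exact dat_4b c k hr.1 hr.2.1 hr.2.2.1 hr.2.2.2 h1 h2 h3 h4
    · unfold aI' aI bI
      rw [dat_tg_out _ _ _ hr, dat_tg_out _ _ _ hr]
      simp
  · intro c k h
    unfold aI' aI
    rw [if_neg (by omega)]
  · intro c k h1 h2 h3 h4
    exact dat_5a c k (by omega) (by omega) (by omega) (by omega) h1 h2 h3 h4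
  · intro c k h1 h2 h3 h4 h5
    exact dat_5b c k (by omega) (by omega) (by omega) (by omega) h1 h2 h3 h4 h5

end GW
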