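import Pool.Agent.Helper89.GW.Stmts

set_option autoImplicit false

open scoped ContDiff Topology
open Set Filter

namespace GW

theorem slin_sup (m b u : ℤ → ℤ → ℤ) (s s' : ℤ) (hm : SupI m) (hb : SupI b) (hu : SupI u) :
    SupI (fun c k => m c k + s' * b c k - s * u c k) := by
  intro c k h
  by_contra hcon
  apply h
  have h1 : m c k = 0 := by
    by_contra h'
    exact hcon (hm c k h')
  have h2 : b c k = 0 := by
    by_contra h'
    exact hcon (hb c k h')
  have h3 : u c k = 0 := by
    by_contra h'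
    exact hcon (hu c k h')
  simp only [h1, h2, h3]
  ring

theorem st_SLIN (hS : ST_SPD) : ST_SLIN := by
  intro m b u s s' z hm hb hu
  have hsup := slin_sup m b u s s' hm hb hu
  obtain ⟨x, t⟩ := z
  refine ⟨hsup, ?_, ?_, ?_⟩
  · unfold sp Sp
    simp only [Finset.mul_sum, ← Finset.sum_add_distrib, ← Finset.sum_sub_distrib]
    refine Finset.sum_congr rfl fun c _ => Finset.sum_congr rfl fun k _ => ?_
    push_cast
    ring
  · rw [(hS _ hsup).2.2.1 x t, (hS _ hm).2.2.1 x t, (hS _ hb).2.2.1 x t, (hS _ hu).2.2.1 x t]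
    simp only [Finset.mul_sum, ← Finset.sum_add_distrib, ← Finset.sum_sub_distrib]
    refine Finset.sum_congr rfl fun c _ => Finset.sum_congr rfl fun k _ => ?_
    push_cast
    ring
  · rw [(hS _ hsup).2.2.2 x t, (hS _ hm).2.2.2 x t, (hS _ hb).2.2.2 x t, (hS _ hu).2.2.2 x t]
    simp only [Finset.mul_sum, ← Finset.sum_add_distrib, ← Finset.sum_sub_distrib]
    refine Finset.sum_congr rfl fun c _ => Finset.sum_congr rfl fun k _ => ?_
    push_cast
    ring

end GW
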