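import Pool.Agent.Helper89.GW.Stmts

set_option autoImplicit false

open scoped ContDiff Topology NNReal
open Set Filter

namespace GW

theorem uniq_lip {F : Type} [NormedAddCommGroup F] [NormedSpace ℝ F]
    [FiniteDimensional ℝ F] (X : ℝ × F → F) (hX : ContDiff ℝ ∞ X) (R : ℝ) :
    ∃ K : ℝ≥0, ∀ t ∈ Icc (0 : ℝ) 1,
      LipschitzOnWith K (fun x => X (t, x)) (Metric.closedBall 0 R) := by
  have : ProperSpace F := FiniteDimensional.proper ℝ F
  have h1 : ContDiff ℝ 1 X := hX.of_le (by exact_mod_cast le_top)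
  have hc : IsCompact ((Icc (0 : ℝ) 1) ×ˢ (Metric.closedBall (0 : F) R)) :=
    isCompact_Icc.prod (isCompact_closedBall _ _)
  obtain ⟨K, hK⟩ := (h1.locallyLipschitz.locallyLipschitzOn
    (s := (Icc (0 : ℝ) 1) ×ˢ (Metric.closedBall (0 : F) R))).exists_lipschitzOnWith_of_compact hc
  refine ⟨K, fun t ht => ?_⟩
  intro x hx y hy
  have := hK (x := (t, x)) ⟨ht, hx⟩ (y := (t, y)) ⟨ht, hy⟩
  simpa [Prod.edist_eq] using this

theorem uniq_bound {F : Type} [NormedAddCommGroup F] [NormedSpace ℝ F]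
    (c : ℝ → F) (hc : ContinuousOn c (Icc 0 1)) :
    ∃ R : ℝ, ∀ s ∈ Icc (0 : ℝ) 1, ‖c s‖ ≤ R := by
  obtain ⟨R, hR⟩ := isCompact_Icc.exists_bound_of_continuousOn hc
  exact ⟨R, hR⟩

theorem st_UNIQ : ST_UNIQ := by
  intro F _ _ _ X hX c d hc hd
  have hcc : ContinuousOn c (Icc 0 1) := fun s hs => (hc s hs).continuousWithinAt
  have hdc : ContinuousOn d (Icc 0 1) := fun s hs => (hd s hs).continuousWithinAt
  obtain ⟨R1, hR1⟩ := uniq_bound c hcc
  obtain ⟨R2, hR2⟩ := uniq_bound d hdc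
  obtain ⟨K, hK⟩ := uniq_lip X hX (max R1 R2)
  have hcm : ∀ s ∈ Icc (0 : ℝ) 1, c s ∈ Metric.closedBall (0 : F) (max R1 R2) := by
    intro s hs
    rw [mem_closedBall_zero_iff]
    exact (hR1 s hs).trans (le_max_left _ _)
  have hdm : ∀ s ∈ Icc (0 : ℝ) 1, d s ∈ Metric.closedBall (0 : F) (max R1 R2) := by
    intro s hs
    rw [mem_closedBall_zero_iff]
    exact (hR2 s hs).trans (le_max_right _ _)
  constructor
  · intro h0
    refine ODE_solution_unique_of_mem_Icc_right (v := fun t x => X (t, x))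
      (s := fun _ => Metric.closedBall (0 : F) (max R1 R2)) (K := K)
      (fun t ht => hK t ⟨ht.1, ht.2.le⟩) hcc ?_ (fun t ht => hcm t ⟨ht.1, ht.2.le⟩) hdc ?_
      (fun t ht => hdm t ⟨ht.1, ht.2.le⟩) h0
    · intro t ht
      exact (hc t ⟨ht.1, ht.2.le⟩).mono_of_mem_nhdsWithin
        (mem_of_superset (Icc_mem_nhdsGE_of_mem ht) (Subset.refl _))
    · intro t ht
      exact (hd t ⟨ht.1, ht.2.le⟩).mono_of_mem_nhdsWithin
        (mem_of_superset (Icc_mem_nhdsGE_of_mem ht) (Subset.refl _))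
  · intro h1
    refine ODE_solution_unique_of_mem_Icc_left (v := fun t x => X (t, x))
      (s := fun _ => Metric.closedBall (0 : F) (max R1 R2)) (K := K)
      (fun t ht => hK t ⟨ht.1.le, ht.2⟩) hcc ?_ (fun t ht => hcm t ⟨ht.1.le, ht.2⟩) hdc ?_
      (fun t ht => hdm t ⟨ht.1.le, ht.2⟩) h1
    · intro t ht
      exact (hc t ⟨ht.1.le, ht.2⟩).mono_of_mem_nhdsWithin
        (mem_of_superset (Icc_mem_nhdsLE_of_mem ht) (Subset.refl _))
    · intro t ht
      exact (hd t ⟨ht.1.le, ht.2⟩).mono_of_mem_nhdsWithin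
        (mem_of_superset (Icc_mem_nhdsLE_of_mem ht) (Subset.refl _))

end GW
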